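import Pool.Agent.W952.LP.Fin3
import Pool.Agent.W952.LP.Low
import Pool.Agent.W952.LP.Sig2
import Pool.Agent.W612.LP.Cpt
import Pool.Agent.W612.LP.Dim
import Pool.Agent.W612.LP.Room
import Pool.Agent.W215.LP.Conn
import Pool.Agent.W85.LP.Pts
import Pool.Agent.W371.LP.Arcs
import Pool.Agent.W465.LP.LemA
import Pool.Agent.W214.LP.Back
import Pool.Agent.W174.LP.Forth
import Pool.Agent.W790.LP.CX
import Pool.Agent.W366.LP.Lt
import Pool.Agent.W645.LP.Flag
import Pool.Agent.W696.LP.Comp
import Pool.Agent.W356.LP.Dist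
import Pool.Agent.W646.LP.Dense

/-!
# A connected finite-dimensional low₃-presented Polish space without computable presentation

There is an oracle `D` whose `n`-th jump is Turing equivalent to the `n`-th jump of the empty set
for all `n ≥ 3` (so `D` is low₃, in particular low₄), and a compact connected Polish space `X` of
finite covering dimension with a `D`-computable presentation, such that `X` is not homeomorphic to
any space with a computable presentation. The definitions of the statement are in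
`Pool/Agent/W952/LP/Defs.lean` (`Presented`, `CompIn`, `ratVal`, `DimLE`, `zero`),
`Pool/Agent/Helper227/Defs.lean` (`TLe`), `Pool/Agent/Helper227/RD/Jump.lean` (`jump`) and
`Pool/Agent/H685R3/Om.lean` (`jn`).
-/

set_option autoImplicit false

namespace Pool.Agent.Results.MP_f0c992_lc.ConnectedLowThree

open Pool.Agent.Helper227 Pool.Agent.H685R3 Pool.Agent.W952.LP

theorem result :
    ∃ D : ℕ → Bool, (∀ n, 3 ≤ n → TLe (jn D n) (jn zero n) ∧ TLe (jn zero n) (jn D n)) ∧
      ∃ (X : Type) (_ : TopologicalSpace X), PolishSpace X ∧ CompactSpace X ∧ ConnectedSpace X ∧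
        DimLE X 7 ∧ Presented D X ∧
          ∀ (Y : Type) [TopologicalSpace Y], Presented zero Y → IsEmpty (X ≃ₜ Y) :=
  fin3 Pool.Agent.W612.LP.compact Pool.Agent.W215.LP.conn Pool.Agent.W612.LP.dim
    (Pool.Agent.W465.LP.main Pool.Agent.W85.LP.inj Pool.Agent.W85.LP.fib Pool.Agent.W371.LP.bun
      Pool.Agent.W371.LP.arcO Pool.Agent.W371.LP.arcC Pool.Agent.W612.LP.compact)
    (Pool.Agent.W612.LP.Room.room Pool.Agent.W85.LP.inj Pool.Agent.W85.LP.fib
      Pool.Agent.W371.LP.bun Pool.Agent.W371.LP.arcO Pool.Agent.W371.LP.arcC)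
    Pool.Agent.W214.LP.back Pool.Agent.W174.LP.forth Pool.Agent.W790.LP.cx
    Pool.Agent.W366.LP.lt_holds Pool.Agent.W645.LP.flag_le Pool.Agent.W696.LP.t_comp
    Pool.Agent.W356.LP.t_dist Pool.Agent.W356.LP.t_mem Pool.Agent.W646.LP.dense
    Pool.Agent.W952.LP.low Pool.Agent.W952.LP.inv Pool.Agent.W952.LP.sig2

end Pool.Agent.Results.MP_f0c992_lc.ConnectedLowThree
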